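import Mathlib

/-!
Orbits of affine maps (helper694): elementary facts on the iterates of `x ↦ a x + b`, and a growth lemma.
-/

set_option autoImplicit false

namespace Pool.Agent.N694.OB

open Finset Filter Topology

/-- the sum of the first `v` powers of `a` -/
def geo (a v : ℕ) : ℤ := ∑ i ∈ range v, (a : ℤ) ^ i

theorem geo_zero (a : ℕ) : geo a 0 = 0 := by simp [geo]

theorem geo_succ (a v : ℕ) : geo a (v + 1) = a * geo a v + 1 := by
  unfold geo
  rw [sum_range_succ', mul_sum]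
  simp only [pow_succ, pow_zero]
  congr 1
  exact sum_congr rfl fun i _ => by ring

theorem iter (a : ℕ) (b : ℤ) (v : ℕ) (x : ℤ) :
    (fun z : ℤ => (a : ℤ) * z + b)^[v] x = (a : ℤ) ^ v * x + b * geo a v := by
  induction v with
  | zero => simp [geo_zero]
  | succ v ih =>
    rw [Function.iterate_succ_apply', ih, geo_succ]
    ring

theorem geo_mul (a v : ℕ) : ((a : ℤ) - 1) * geo a v = (a : ℤ) ^ v - 1 := by
  induction v with
  | zero => simp [geo_zero]
  | succ v ih =>
    rw [geo_succ, mul_add, mul_left_comm, ih]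
    ring

/-- the form `S^v(n)` -/
def fo (a : ℕ) (b : ℤ) (v : ℕ) : ℤ × ℤ := ((a : ℤ) ^ v, b * geo a v)

theorem fo_inj {a : ℕ} {b : ℤ} (ha : 2 ≤ a) {v w : ℕ} (h : fo a b v = fo a b w) : v = w := by
  have h1 : (a : ℤ) ^ v = (a : ℤ) ^ w := (Prod.mk.inj h).1
  have h2 : a ^ v = a ^ w := by exact_mod_cast h1
  exact Nat.pow_right_injective ha h2

theorem fo_pos {a : ℕ} {b : ℤ} (ha : 2 ≤ a) (v : ℕ) : 0 < (fo a b v).1 := by
  unfold fo
  have : (0 : ℤ) < a := by exact_mod_cast (by omega : 0 < a)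
  positivity

theorem fo_cop {a : ℕ} {b : ℤ} (h : IsCoprime (a : ℤ) b) (v : ℕ) :
    IsCoprime (fo a b v).1 (fo a b v).2 := by
  unfold fo
  cases v with
  | zero => simp [isCoprime_one_left]
  | succ v =>
    refine IsCoprime.pow_left (IsCoprime.mul_right h ?_)
    rw [geo_succ]
    exact ⟨-geo a v, 1, by ring⟩

/-- no local obstruction at times divisible by `a - 1` -/
theorem fo_adm {a : ℕ} {b : ℤ} (ha : 2 ≤ a) (hab : IsCoprime (a : ℤ) b) {p : ℕ} (hp : p.Prime) :
    ∃ r : ℤ, ∀ v : ℕ, (a - 1) ∣ v → ¬ (p : ℤ) ∣ (fo a b v).1 * r + (fo a b v).2 := by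
  have hpZ : Prime (p : ℤ) := Nat.prime_iff_prime_int.1 hp
  have hp1 : ¬ (p : ℤ) ∣ 1 := hpZ.not_dvd_one
  by_cases h1 : (p : ℤ) ∣ a
  · -- then `p` does not divide `b`
    have hb : ¬ (p : ℤ) ∣ b := by
      intro hb
      obtain ⟨u, w, huw⟩ := hab
      exact hp1 (huw ▸ dvd_add (dvd_mul_of_dvd_right h1 u) (dvd_mul_of_dvd_right hb w))
    refine ⟨1, fun v _ hd => ?_⟩
    cases v with
    | zero =>
      simp only [fo, pow_zero, geo_zero, mul_zero, mul_one, add_zero] at hd
      exact hp1 hd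
    | succ v =>
      simp only [fo, geo_succ] at hd
      have h2 : (p : ℤ) ∣ (a : ℤ) * ((a : ℤ) ^ v + b * geo a v) := dvd_mul_of_dvd_left h1 _
      have h3 := dvd_sub hd h2
      apply hb
      have h4 : (a : ℤ) ^ (v + 1) * 1 + b * (a * geo a v + 1) - (a : ℤ) * ((a : ℤ) ^ v + b * geo a v) = b := by
        ring
      rwa [h4] at h3
  · by_cases h2 : (p : ℤ) ∣ b
    · refine ⟨1, fun v _ hd => ?_⟩
      simp only [fo, mul_one] at hd
      have h3 : (p : ℤ) ∣ (a : ℤ) ^ v := (dvd_add_left (dvd_mul_of_dvd_left h2 _)).1 hd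
      exact h1 (hpZ.dvd_of_dvd_pow h3)
    · by_cases h3 : (p : ℤ) ∣ (a : ℤ) - 1
      · refine ⟨1, fun v hv hd => ?_⟩
        have h4 : ∀ w : ℕ, (p : ℤ) ∣ geo a w - w ∧ (p : ℤ) ∣ (a : ℤ) ^ w - 1 := by
          intro w
          induction w with
          | zero => simp [geo_zero]
          | succ w ih =>
            constructor
            · rw [geo_succ]
              have h5 : (a : ℤ) * geo a w + 1 - ((w + 1 : ℕ) : ℤ) =
                  ((a : ℤ) - 1) * geo a w + (geo a w - w) := by push_cast; ring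
              rw [h5]
              exact dvd_add (dvd_mul_of_dvd_left h3 _) ih.1
            · have h5 : (a : ℤ) ^ (w + 1) - 1 = ((a : ℤ) - 1) * (a : ℤ) ^ w + ((a : ℤ) ^ w - 1) := by ring
              rw [h5]
              exact dvd_add (dvd_mul_of_dvd_left h3 _) ih.2
        obtain ⟨h5, h6⟩ := h4 v
        have h7 : (p : ℤ) ∣ (v : ℤ) := by
          have h8 : ((a - 1 : ℕ) : ℤ) = (a : ℤ) - 1 := by push_cast [Nat.cast_sub (by omega : 1 ≤ a)]; ring
          rw [← h8] at h3
          exact h3.trans (Int.natCast_dvd_natCast.2 hv)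
        have h8 : (p : ℤ) ∣ geo a v := by
          have := dvd_add h5 h7
          simpa using this
        simp only [fo, mul_one] at hd
        have h9 : (p : ℤ) ∣ (a : ℤ) ^ v := (dvd_add_left (dvd_mul_of_dvd_right h8 _)).1 hd
        exact h1 (hpZ.dvd_of_dvd_pow h9)
      · have hcop : IsCoprime ((a : ℤ) - 1) (p : ℤ) :=
          ((Prime.coprime_iff_not_dvd hpZ).2 h3).symm
        obtain ⟨u, w, huw⟩ := hcop
        refine ⟨-b * u, fun v _ hd => ?_⟩
        simp only [fo] at hd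
        have h4 : (p : ℤ) ∣ ((a : ℤ) - 1) * ((a : ℤ) ^ v * (-b * u) + b * geo a v) :=
          dvd_mul_of_dvd_right hd _
        have h5 : ((a : ℤ) - 1) * ((a : ℤ) ^ v * (-b * u) + b * geo a v) =
            (a : ℤ) ^ v * b * w * p - b := by
          have h6 : u * ((a : ℤ) - 1) = 1 - w * p := by linarith
          calc ((a : ℤ) - 1) * ((a : ℤ) ^ v * (-b * u) + b * geo a v)
              = -(a : ℤ) ^ v * b * (u * ((a : ℤ) - 1)) + b * (((a : ℤ) - 1) * geo a v) := by ring
            _ = -(a : ℤ) ^ v * b * (1 - w * p) + b * ((a : ℤ) ^ v - 1) := by rw [h6, geo_mul]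
            _ = _ := by ring
        rw [h5] at h4
        apply h2
        exact (dvd_sub_right (dvd_mul_left (p : ℤ) _)).1 h4

/-- the growth lemma -/
theorem growthA (A B C : ℕ) : ∀ᶠ N : ℕ in atTop,
    ((A * N + B : ℕ) : ℝ) / (Real.log ((A * N + B : ℕ) : ℝ)) ^ (C + 1) ≤
      (N : ℝ) / (Real.log N) ^ C - B := by
  rcases Nat.eq_zero_or_pos A with hA0 | hA0
  · subst hA0
    have hlog : Tendsto (fun N : ℕ => Real.log (N : ℝ)) atTop atTop :=
      Real.tendsto_log_atTop.comp tendsto_natCast_atTop_atTop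
    have h1 : Tendsto (fun N : ℕ => (Real.log (N : ℝ)) ^ C / (N : ℝ)) atTop (𝓝 0) := by
      have h2 := (Real.isLittleO_pow_log_id_atTop (n := C)).tendsto_div_nhds_zero
      exact h2.comp tendsto_natCast_atTop_atTop
    set Q : ℝ := ((0 * 0 + B : ℕ) : ℝ) / (Real.log ((0 * 0 + B : ℕ) : ℝ)) ^ (C + 1) + B + 1 with hQ
    have hQ0 : 0 < |Q| + 1 := by positivity
    have h3 : Tendsto (fun N : ℕ => (|Q| + 1) * ((Real.log (N : ℝ)) ^ C / (N : ℝ))) atTop (𝓝 0) := by
      simpa using h1.const_mul (|Q| + 1)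
    filter_upwards [h3.eventually (gt_mem_nhds (by norm_num : (0 : ℝ) < 1)), eventually_gt_atTop 0,
      hlog.eventually_ge_atTop 1] with N h4 h5 h6
    have hN : (0 : ℝ) < N := by exact_mod_cast h5
    have hl : (0 : ℝ) < (Real.log N) ^ C := by positivity
    have h7 : |Q| + 1 ≤ (N : ℝ) / (Real.log N) ^ C := by
      rw [le_div_iff₀ hl]
      have h8 : (|Q| + 1) * (Real.log N) ^ C / N < 1 := by rw [mul_div_assoc]; exact h4
      rw [div_lt_iff₀ hN] at h8
      linarith
    have h9 : Q ≤ |Q| := le_abs_self Q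
    have h10 : ((0 * N + B : ℕ) : ℝ) / (Real.log ((0 * N + B : ℕ) : ℝ)) ^ (C + 1) = Q - B - 1 := by
      rw [hQ]
      simp only [zero_mul, zero_add, mul_zero]
      ring
    rw [h10]
    linarith
  have hlog : Tendsto (fun N : ℕ => Real.log (N : ℝ)) atTop atTop :=
    Real.tendsto_log_atTop.comp tendsto_natCast_atTop_atTop
  have hsmall : ∀ᶠ N : ℕ in atTop, (B : ℝ) * (Real.log N) ^ C ≤ (N : ℝ) / 2 := by
    have h1 : Tendsto (fun N : ℕ => (Real.log (N : ℝ)) ^ C / (N : ℝ)) atTop (𝓝 0) := by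
      have h2 := (Real.isLittleO_pow_log_id_atTop (n := C)).tendsto_div_nhds_zero
      exact h2.comp tendsto_natCast_atTop_atTop
    have h3 : Tendsto (fun N : ℕ => (B : ℝ) * ((Real.log (N : ℝ)) ^ C / (N : ℝ))) atTop (𝓝 0) := by
      simpa using h1.const_mul (B : ℝ)
    filter_upwards [h3.eventually (gt_mem_nhds (by norm_num : (0 : ℝ) < 1 / 2)),
      eventually_gt_atTop 0] with N h4 h5
    have h6 : (0 : ℝ) < N := by exact_mod_cast h5
    have h7 : (B : ℝ) * (Real.log N) ^ C / N < 1 / 2 := by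
      rw [mul_div_assoc]; exact h4
    rw [div_lt_iff₀ h6] at h7
    linarith
  filter_upwards [hsmall, hlog.eventually_ge_atTop (2 * (A + 1)), hlog.eventually_ge_atTop 1,
    eventually_ge_atTop (B + 1)] with N h1 h2 h2' h3
  have hN : (0 : ℝ) < N := by
    have : 0 < N := by omega
    exact_mod_cast this
  have hl : (0 : ℝ) < (Real.log N) ^ C := by positivity
  have hl1 : (0 : ℝ) < (Real.log N) ^ (C + 1) := by positivity
  have hAN : (N : ℝ) ≤ ((A * N + B : ℕ) : ℝ) := by
    have : N ≤ A * N + B := by nlinarith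
    exact_mod_cast this
  have hmono : Real.log N ≤ Real.log ((A * N + B : ℕ) : ℝ) := Real.log_le_log hN hAN
  have h4 : (Real.log N) ^ (C + 1) ≤ (Real.log ((A * N + B : ℕ) : ℝ)) ^ (C + 1) :=
    pow_le_pow_left₀ (by linarith) hmono _
  have h5 : ((A * N + B : ℕ) : ℝ) ≤ (A + 1) * N := by
    push_cast
    have : (B : ℝ) ≤ N := by exact_mod_cast (by omega : B ≤ N)
    linarith
  calc ((A * N + B : ℕ) : ℝ) / (Real.log ((A * N + B : ℕ) : ℝ)) ^ (C + 1)
      ≤ ((A + 1) * N) / (Real.log N) ^ (C + 1) := by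
        apply div_le_div₀ (by positivity) h5 hl1 h4
    _ ≤ (N : ℝ) / (Real.log N) ^ C / 2 := by
        rw [div_div, div_le_div_iff₀ hl1 (by positivity), pow_succ]
        have h6 : (0 : ℝ) ≤ N * (Real.log N) ^ C := by positivity
        nlinarith
    _ ≤ (N : ℝ) / (Real.log N) ^ C - B := by
        have h6 : (B : ℝ) ≤ (N : ℝ) / (Real.log N) ^ C / 2 := by
          rw [div_div, le_div_iff₀ (by positivity)]
          nlinarith
        linarith

end Pool.Agent.N694.OB
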