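import Mathlib
import Pool.Agent.N694.OB.Aff

/-!
Orbits of affine maps (helper694): congruences which make the values at all other times composite
(after `Pool.Agent.W218.OG.block`), and the linear forms in the progression.
-/

set_option autoImplicit false

namespace Pool.Agent.N694.OB

open Finset Filter Topology

/-- the `v`-th iterate of `z ↦ a z + b` at `x` -/
def va (a : ℕ) (b : ℤ) (v : ℕ) (x : ℤ) : ℤ := (a : ℤ) ^ v * x + b * geo a v

theorem va_comp (a : ℕ) (b : ℤ) (i j : ℕ) (x : ℤ) : va a b (i + j) x = va a b j (va a b i x) := by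
  unfold va
  rw [← iter, ← iter, ← iter, add_comm i j, Function.iterate_add_apply]

theorem va_zero (a : ℕ) (b : ℤ) (x : ℤ) : va a b 0 x = x := by simp [va, geo_zero]

theorem va_inj {a : ℕ} {b : ℤ} (ha : 2 ≤ a) (v : ℕ) {x y : ℤ} (h : va a b v x = va a b v y) : x = y := by
  unfold va at h
  have h1 : (a : ℤ) ^ v * x = (a : ℤ) ^ v * y := by linarith
  have h2 : (a : ℤ) ^ v ≠ 0 := pow_ne_zero _ (by exact_mod_cast (by omega : a ≠ 0))
  exact mul_left_cancel₀ h2 h1

theorem geo_pos {a : ℕ} (ha : 1 ≤ a) {j : ℕ} (hj : 0 < j) : 0 < geo a j :=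
  sum_pos (fun t _ => by positivity) ⟨0, mem_range.2 hj⟩

/-- the iterates do not decrease from `|b|` on -/
theorem le_va {a : ℕ} {b : ℤ} (ha : 2 ≤ a) (v : ℕ) {x : ℤ} (hx : |b| ≤ x) : x ≤ va a b v x := by
  induction v with
  | zero => rw [va_zero]
  | succ v ih =>
    rw [va_comp]
    refine ih.trans ?_
    unfold va
    have h1 : geo a 1 = 1 := by simp [geo]
    rw [h1, pow_one, mul_one]
    have h2 : |b| ≤ (a : ℤ) ^ v * x + b * geo a v := hx.trans ih
    have h3 : (2 : ℤ) ≤ a := by exact_mod_cast ha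
    have h4 : -|b| ≤ b := neg_abs_le b
    have h5 : 0 ≤ |b| := abs_nonneg b
    nlinarith

theorem dvd_geo {a : ℕ} {b : ℤ} {p : ℤ} {i j : ℕ} (hij : i < j) {x : ℤ}
    (hi : p ∣ va a b i x) (hj : p ∣ va a b j x) : p ∣ b * geo a (j - i) := by
  have h1 : va a b j x = (a : ℤ) ^ (j - i) * va a b i x + b * geo a (j - i) := by
    have h2 : va a b j x = va a b (i + (j - i)) x := by congr 1; omega
    rw [h2, va_comp]
    rfl
  rw [h1] at hj
  exact (dvd_add_right (hi.mul_left _)).1 hj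

/-- the congruence condition: all values at the times `t ≤ W` outside `E` are divisible by a prime
factor of `Q`, and no value at a time of `E` is divisible by a prime factor of `Q` -/
theorem block (a : ℕ) (b : ℤ) (ha : 2 ≤ a) (hb : b ≠ 0) (W : ℕ) (E : Finset ℕ)
    (hE : ∀ t ∈ E, t ≤ W) : ∃ Q r : ℕ, 0 < Q ∧
      (∀ t ≤ W, t ∉ E → ∃ p : ℕ, p.Prime ∧ p ∣ Q ∧ (p : ℤ) ∣ va a b t r) ∧
      ∀ p : ℕ, p.Prime → p ∣ Q → ∀ t ∈ E, ¬ (p : ℤ) ∣ va a b t r := by
  classical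
  set Y : ℕ := ∑ d ∈ range (W + 1), (b * geo a d).natAbs with hY
  set q : ℕ → ℕ := fun t => Nat.nth Nat.Prime (Y + a + t) with hq
  have hqp : ∀ t, (q t).Prime := fun t => Nat.prime_nth_prime _
  have hqinj : Function.Injective q := by
    intro s t hst
    have := Nat.nth_injective Nat.infinite_setOfPred_prime hst
    omega
  have hqY : ∀ t, Y + a < q t := by
    intro t
    have := Nat.add_two_le_nth_prime (Y + a + t)
    show Y + a < Nat.nth Nat.Prime (Y + a + t)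
    omega
  have hnd : ∀ t, ¬ q t ∣ a := fun t h => by
    have h1 := Nat.le_of_dvd (by omega) h
    have h2 := hqY t
    omega
  have hz : ∀ t, ∃ r : ℕ, (q t : ℤ) ∣ va a b t r := by
    intro t
    have : Fact (q t).Prime := ⟨hqp t⟩
    have ha0 : (a : ZMod (q t)) ≠ 0 := by
      rw [Ne, ZMod.natCast_eq_zero_iff]; exact hnd t
    refine ⟨(-((b * geo a t : ℤ) : ZMod (q t)) / (a : ZMod (q t)) ^ t).val, ?_⟩
    unfold va
    rw [← ZMod.intCast_zmod_eq_zero_iff_dvd]
    push_cast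
    rw [ZMod.natCast_zmod_val]
    field_simp
    ring
  choose z hz using hz
  set U : Finset ℕ := (range (W + 1)).filter fun t => t ∉ E with hU
  have hpair : Set.Pairwise (U : Set ℕ) (Function.onFun Nat.Coprime q) := by
    intro s _ t _ hst
    exact (Nat.coprime_primes (hqp s) (hqp t)).2 fun h => hst (hqinj h)
  obtain ⟨r, hr⟩ := Nat.chineseRemainderOfFinset z q U (fun t _ => (hqp t).ne_zero) hpair
  have hrd : ∀ t ∈ U, (q t : ℤ) ∣ va a b t (r : ℤ) := by
    intro t ht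
    have h1 : ((r : ℕ) : ℤ) ≡ (z t : ℤ) [ZMOD q t] := (Int.natCast_modEq_iff).2 (hr t ht)
    have h2 : va a b t (r : ℤ) ≡ va a b t (z t : ℤ) [ZMOD q t] := by
      unfold va
      exact (h1.mul_left _).add_right _
    exact h2.dvd_iff.2 (hz t)
  refine ⟨∏ t ∈ U, q t, r, prod_pos fun t _ => (hqp t).pos, ?_, ?_⟩
  · intro t ht hne
    have htU : t ∈ U := by rw [hU, mem_filter, mem_range]; exact ⟨by omega, hne⟩
    exact ⟨q t, hqp t, dvd_prod_of_mem q htU, hrd t htU⟩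
  · intro p hp hpQ s hs hd
    obtain ⟨t, htU, hpt⟩ := (hp.prime.dvd_finsetProd_iff _).1 hpQ
    have hpq : p = q t := (Nat.prime_dvd_prime_iff_eq hp (hqp t)).1 hpt
    subst hpq
    have ht := mem_filter.1 (hU ▸ htU)
    have hts : t ≠ s := fun h => ht.2 (h ▸ hs)
    have htW : t ≤ W := by have := mem_range.1 ht.1; omega
    have key : ∀ i j : ℕ, i < j → j ≤ W → (q t : ℤ) ∣ va a b i r → (q t : ℤ) ∣ va a b j r → False := by
      intro i j hij hj h1 h2
      have h3 := dvd_geo hij h1 h2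
      have h4 : b * geo a (j - i) ≠ 0 := mul_ne_zero hb (geo_pos (by omega) (by omega)).ne'
      have h5 : (b * geo a (j - i)).natAbs ≤ Y :=
        single_le_sum (f := fun d => (b * geo a d).natAbs) (fun _ _ => Nat.zero_le _)
          (mem_range.2 (by omega))
      have h6 : q t ∣ (b * geo a (j - i)).natAbs := Int.natCast_dvd.1 h3
      have h7 := Nat.le_of_dvd (Int.natAbs_pos.2 h4) h6
      have h8 := hqY t
      omega
    rcases lt_or_gt_of_ne hts with h | h
    · exact key t s h (hE s hs) (hrd t htU) hd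
    · exact key s t h htW hd (hrd t htU)

/-- the form `S^v(Q n + r)` -/
def fq (a : ℕ) (b : ℤ) (Q r v : ℕ) : ℤ × ℤ := ((a : ℤ) ^ v * Q, va a b v r)

theorem fq_val (a : ℕ) (b : ℤ) (Q r v : ℕ) (n : ℤ) :
    (fq a b Q r v).1 * n + (fq a b Q r v).2 = va a b v (Q * n + r) := by
  simp only [fq, va]
  ring

theorem fq_inj {a : ℕ} {b : ℤ} (ha : 2 ≤ a) {Q r : ℕ} (hQ : 0 < Q) {v w : ℕ}
    (h : fq a b Q r v = fq a b Q r w) : v = w := by
  have h1 : (a : ℤ) ^ v * Q = (a : ℤ) ^ w * Q := (Prod.mk.inj h).1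
  have h2 : a ^ v * Q = a ^ w * Q := by exact_mod_cast h1
  exact Nat.pow_right_injective ha (Nat.eq_of_mul_eq_mul_right hQ h2)

theorem fq_pos {a : ℕ} {b : ℤ} (ha : 2 ≤ a) {Q r : ℕ} (hQ : 0 < Q) (v : ℕ) :
    0 < (fq a b Q r v).1 := by
  unfold fq
  have : (0 : ℤ) < a := by exact_mod_cast (by omega : 0 < a)
  have : (0 : ℤ) < Q := by exact_mod_cast hQ
  positivity

theorem fq_cop {a : ℕ} {b : ℤ} (h : IsCoprime (a : ℤ) b) {Q r : ℕ} (v : ℕ)
    (hv : ∀ p : ℕ, p.Prime → p ∣ Q → ¬ (p : ℤ) ∣ va a b v r) :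
    IsCoprime (fq a b Q r v).1 (fq a b Q r v).2 := by
  unfold fq
  refine IsCoprime.mul_left ?_ ?_
  · unfold va
    cases v with
    | zero => simp [isCoprime_one_left]
    | succ v =>
      refine IsCoprime.pow_left ?_
      rw [geo_succ]
      have h1 : (a : ℤ) ^ (v + 1) * r + b * (a * geo a v + 1) =
          b + (a : ℤ) * ((a : ℤ) ^ v * r + b * geo a v) := by ring
      rw [h1]
      exact h.add_mul_left_right _
  · rw [Int.isCoprime_iff_gcd_eq_one]
    by_contra hne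
    obtain ⟨p, hp, hd⟩ := Nat.exists_prime_and_dvd hne
    have h1 : (p : ℤ) ∣ (Q : ℤ) := (Int.natCast_dvd_natCast.2 hd).trans (Int.gcd_dvd_left _ _)
    have h2 : (p : ℤ) ∣ va a b v r := (Int.natCast_dvd_natCast.2 hd).trans (Int.gcd_dvd_right _ _)
    exact hv p hp (Int.natCast_dvd_natCast.1 h1) h2

/-- no local obstruction at times divisible by `a - 1` -/
theorem fq_adm {a : ℕ} {b : ℤ} (ha : 2 ≤ a) (hab : IsCoprime (a : ℤ) b) {Q r : ℕ} (E : Finset ℕ)
    (hE : ∀ v ∈ E, (a - 1) ∣ v) (hQE : ∀ p : ℕ, p.Prime → p ∣ Q → ∀ t ∈ E, ¬ (p : ℤ) ∣ va a b t r)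
    {p : ℕ} (hp : p.Prime) :
    ∃ n : ℤ, ∀ v ∈ E, ¬ (p : ℤ) ∣ (fq a b Q r v).1 * n + (fq a b Q r v).2 := by
  by_cases hpQ : p ∣ Q
  · refine ⟨0, fun v hv => ?_⟩
    rw [mul_zero, zero_add]
    exact hQE p hp hpQ v hv
  · obtain ⟨ρ, hρ⟩ := fo_adm ha hab hp
    have hpZ : Prime (p : ℤ) := Nat.prime_iff_prime_int.1 hp
    have h1 : IsCoprime (Q : ℤ) (p : ℤ) :=
      ((Prime.coprime_iff_not_dvd hpZ).2 (fun h => hpQ (Int.natCast_dvd_natCast.1 h))).symm
    obtain ⟨u, w, huw⟩ := h1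
    refine ⟨u * (ρ - r), fun v hv hd => hρ v (hE v hv) ?_⟩
    rw [fq_val] at hd
    have h2 : va a b v (Q * (u * (ρ - r)) + r) =
        ((fo a b v).1 * ρ + (fo a b v).2) - (p : ℤ) * ((a : ℤ) ^ v * w * (ρ - r)) := by
      have h3 : u * (Q : ℤ) = 1 - w * p := by linarith
      calc va a b v (Q * (u * (ρ - r)) + r)
          = (a : ℤ) ^ v * ((u * Q) * (ρ - r) + r) + b * geo a v := by unfold va; ring
        _ = (a : ℤ) ^ v * ((1 - w * p) * (ρ - r) + r) + b * geo a v := by rw [h3]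
        _ = _ := by simp only [fo]; ring
    rw [h2] at hd
    exact (dvd_sub_left (dvd_mul_right (p : ℤ) _)).1 hd

end Pool.Agent.N694.OB
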