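import Pool.Agent.N646.BX.All
import Pool.Agent.N694.OB.Blk

/-!
Orbits of affine maps (helper694): the almost cliques of times, with all primes of a window at times
divisible by `q`, and the theorem on boxes of times.
The argument for the almost cliques is that of helper646 for translations (`Pool.Agent.N646.BX.Pri`).
-/

set_option autoImplicit false

namespace Pool.Agent.N694.OB

open Finset Filter Topology
open Pool.Agent.N646.AC
open Pool.Agent.N646.BX
open Pool.Agent.Y827.GS
open Pool.Agent.Y827.RO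
open Pool.Agent.Y827.HD

/-- `S^{t i}(n)` is prime exactly for `i ∈ J`, and at no time prior to some `t i + q` which is not
divisible by `q` there is a prime -/
def Pt (a : ℕ) (b : ℤ) (q : ℕ) {k : ℕ} (t : Fin (k + 1) → ℕ) (J : Finset (Fin (k + 1))) (n : ℕ) : Prop :=
  (∀ i, (va a b (t i) n).toNat.Prime ↔ i ∈ J) ∧
    ∀ i s, s < t i + q → ¬ q ∣ s → ¬ (va a b s n).toNat.Prime

open Classical in
/-- the number of these `n` in `[1, N]` -/
noncomputable def ptq (a : ℕ) (b : ℤ) (q : ℕ) {k : ℕ} (t : Fin (k + 1) → ℕ) (J : Finset (Fin (k + 1)))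
    (N : ℕ) : ℕ := ((Icc 1 N).filter (fun n : ℕ => Pt a b q t J n)).card

theorem ptq_mono (a : ℕ) (b : ℤ) (q : ℕ) {k : ℕ} (t : Fin (k + 1) → ℕ) (J : Finset (Fin (k + 1)))
    {N N' : ℕ} (h : N ≤ N') : ptq a b q t J N ≤ ptq a b q t J N' := by
  classical
  exact card_le_card (filter_subset_filter _ (Icc_subset_Icc_right h))

/-- good differences of times -/
def GoodZ (a : ℕ) (b : ℤ) (q k C : ℕ) (h : Fin k → ℤ) : Prop :=
  ∃ e : ℕ, q ∣ e ∧ (∀ i, (q : ℤ) ≤ (e : ℤ) + (Fin.cons 0 h : Fin (k + 1) → ℤ) i) ∧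
    ∃ᶠ N : ℕ in atTop, ∀ J : Finset (Fin (k + 1)), (N : ℝ) / (Real.log N) ^ C ≤
      (ptq a b q (fun i => ((e : ℤ) + (Fin.cons 0 h : Fin (k + 1) → ℤ) i).toNat) J N : ℝ)

/-- from the forms in the progression to the orbit -/
theorem pat_le {a : ℕ} {b : ℤ} (ha : 2 ≤ a) {q k : ℕ} {Q r W : ℕ} (hQ : 0 < Q) {E : Finset ℕ}
    (hEq : ∀ v ∈ E, q ∣ v)
    (hblk : ∀ t ≤ W, t ∉ E → ∃ p : ℕ, p.Prime ∧ p ∣ Q ∧ (p : ℤ) ∣ va a b t r)
    (t : Fin (k + 1) → ℕ) (ht : ∀ i, t i + q ≤ W) (J : Finset (Fin (k + 1))) (N : ℕ) :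
    pat (fun i => fq a b Q r (t i)) J N ≤ ptq a b q t J (Q * N + (Q + b.natAbs + r)) +
      (Q + b.natAbs + r) := by
  classical
  set B : ℕ := Q + b.natAbs + r with hB
  unfold pat ptq
  have h4 : (Icc 1 N).filter (fun n : ℕ => ∀ i, ((fq a b Q r (t i)).1 * (n : ℤ) +
      (fq a b Q r (t i)).2).toNat.Prime ↔ i ∈ J) ⊆ (Icc 1 B) ∪ ((Icc (B + 1) N).filter (fun n : ℕ =>
        ∀ i, ((fq a b Q r (t i)).1 * (n : ℤ) + (fq a b Q r (t i)).2).toNat.Prime ↔ i ∈ J)) := by
    intro n hn
    rw [mem_filter, mem_Icc] at hn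
    rw [mem_union, mem_Icc, mem_filter, mem_Icc]
    by_cases hnB : n ≤ B
    · exact Or.inl ⟨hn.1.1, hnB⟩
    · exact Or.inr ⟨⟨by omega, hn.1.2⟩, hn.2⟩
  have h5 : ((Icc (B + 1) N).filter (fun n : ℕ => ∀ i, ((fq a b Q r (t i)).1 * (n : ℤ) +
      (fq a b Q r (t i)).2).toNat.Prime ↔ i ∈ J)).card ≤
      ((Icc 1 (Q * N + B)).filter (fun n : ℕ => Pt a b q t J n)).card := by
    apply card_le_card_of_injOn (fun n : ℕ => Q * n + r)
    · intro n hn
      rw [mem_coe, mem_filter, mem_Icc] at hn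
      rw [mem_coe, mem_filter, mem_Icc]
      obtain ⟨⟨hn1, hn2⟩, hn3⟩ := hn
      have hQn : n ≤ Q * n := Nat.le_mul_of_pos_left _ hQ
      have hQN : Q * n ≤ Q * N := Nat.mul_le_mul_left _ hn2
      refine ⟨⟨by show 1 ≤ Q * n + r; omega, by show Q * n + r ≤ Q * N + B; omega⟩, ?_, ?_⟩
      · intro i
        have h6 := hn3 i
        rw [fq_val] at h6
        have h7 : ((Q * n + r : ℕ) : ℤ) = (Q : ℤ) * n + r := by push_cast; ring
        rw [h7]
        exact h6
      · intro i s hs hqs hpr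
        have hsW : s ≤ W := by have := ht i; omega
        have hsE : s ∉ E := fun h => hqs (hEq s h)
        obtain ⟨p, hp, hpQ, hpd⟩ := hblk s hsW hsE
        set m : ℤ := ((Q * n + r : ℕ) : ℤ) with hm
        have hpm : (p : ℤ) ∣ va a b s m := by
          have h7 : va a b s m = (a : ℤ) ^ s * (Q * n) + va a b s r := by
            rw [hm]; unfold va; push_cast; ring
          rw [h7]
          refine dvd_add ?_ hpd
          exact (((Int.natCast_dvd_natCast.2 hpQ).mul_right (n : ℤ))).mul_left _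
        have hmb : |b| ≤ m := by
          have h8 : b.natAbs ≤ Q * n + r := by omega
          have h9 : ((b.natAbs : ℕ) : ℤ) ≤ ((Q * n + r : ℕ) : ℤ) := by exact_mod_cast h8
          rwa [Int.natCast_natAbs] at h9
        have h10 := le_va (b := b) ha s hmb
        have h11 : ((va a b s m).toNat : ℤ) = va a b s m :=
          Int.toNat_of_nonneg ((abs_nonneg b).trans (hmb.trans h10))
        have h12 : p ∣ (va a b s m).toNat := by
          rw [← h11] at hpm
          exact Int.natCast_dvd_natCast.1 hpm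
        have h13 : p = (va a b s m).toNat := (Nat.prime_dvd_prime_iff_eq hp hpr).1 h12
        have h14 : p ≤ Q := Nat.le_of_dvd hQ hpQ
        have h15 : ((Q * n + r : ℕ) : ℤ) ≤ p := by
          rw [h13, h11]; exact h10
        have h16 : Q * n + r ≤ p := by exact_mod_cast h15
        omega
    · intro n hn n' hn' hnn
      have h6 : Q * n + r = Q * n' + r := hnn
      exact Nat.eq_of_mul_eq_mul_left hQ (by omega)
  have h6 := (card_le_card h4).trans (card_union_le _ _)
  rw [Nat.card_Icc] at h6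
  have h7 : B + 1 - 1 = B := by omega
  rw [h7] at h6
  refine h6.trans ?_
  rw [add_comm]
  exact Nat.add_le_add_right h5 B

theorem cleO (k : ℕ) (ε : ℝ) (hε : 0 < ε) : ∃ C : ℕ, ∀ (a : ℕ) (b : ℤ), 2 ≤ a →
    IsCoprime (a : ℤ) b → ∀ q : ℕ, 1 ≤ q → CLe k (GoodZ a b q k C) (5 / 18) ε := by
  classical
  set e : ℝ := min (ε / 2) (1 / 18) with he
  have he0 : 0 < e := lt_min (by linarith) (by norm_num)
  have he1 : e ≤ ε / 2 := min_le_left _ _
  have he2 : e ≤ 1 / 18 := min_le_right _ _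
  obtain ⟨z, n₀, C, m, hm, h, -⟩ := covF k e he0
  refine ⟨C + 1, fun a b ha hab q hq => ⟨(a - 1) * q, n₀, Nat.mul_pos (by omega) hq, ?_⟩⟩
  intro V hV hn
  have hb : b ≠ 0 := by
    rintro rfl
    have h1 : IsUnit (a : ℤ) := isCoprime_zero_right.1 hab
    have h2 := Int.isUnit_iff.1 h1
    omega
  set M₀ : ℕ := (a - 1) * q with hM₀
  have hM₀1 : 1 ≤ M₀ := Nat.mul_pos (by omega) hq
  set B : ℕ := ∑ x ∈ V, x.natAbs with hB
  have hBx : ∀ x ∈ V, x.natAbs ≤ B := fun x hx => single_le_sum (f := fun x : ℤ => x.natAbs)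
    (fun _ _ => Nat.zero_le _) hx
  set s : ℤ := (M₀ : ℤ) * (B + 1) with hs
  have hpos : ∀ x ∈ V, (M₀ : ℤ) ≤ x + s ∧ x + s ≤ B + s := by
    intro x hx
    have h1 := hBx x hx
    have h2 : (x.natAbs : ℤ) ≤ B := by exact_mod_cast h1
    have h3 : (1 : ℤ) ≤ (M₀ : ℤ) := by exact_mod_cast hM₀1
    have h4 : (M₀ : ℤ) + B ≤ s := by
      rw [hs]
      nlinarith [Int.natCast_nonneg B]
    have h5 : -(x.natAbs : ℤ) ≤ x := by omega
    have h6 : x ≤ (x.natAbs : ℤ) := by omega
    constructor <;> linarith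
  have hM₀Z : (0 : ℤ) ≤ M₀ := Int.natCast_nonneg _
  set τ : ℤ → ℕ := fun x => (x + s).toNat with hτ
  have hτx : ∀ x ∈ V, ((τ x : ℕ) : ℤ) = x + s := fun x hx =>
    Int.toNat_of_nonneg (hM₀Z.trans (hpos x hx).1)
  have hτM : ∀ x ∈ V, M₀ ∣ τ x := by
    intro x hx
    have h4 : (M₀ : ℤ) ∣ x + s := dvd_add (hV x hx) (dvd_mul_right _ _)
    rw [← hτx x hx] at h4
    exact Int.natCast_dvd_natCast.1 h4
  set W : ℕ := (B + s).toNat + q with hW
  set E : Finset ℕ := V.image τ with hE
  have hEW : ∀ x ∈ V, τ x + q ≤ W := by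
    intro x hx
    have h1 := (hpos x hx).2
    have h2 := hτx x hx
    omega
  obtain ⟨Q, r, hQ, hb1, hb2⟩ := block a b ha hb W E (by
    intro t ht
    obtain ⟨x, hx, rfl⟩ := mem_image.1 ht
    have := hEW x hx
    omega)
  set F : ℤ → ℤ × ℤ := fun x => fq a b Q r (τ x) with hF
  have hinj : Set.InjOn F (V : Set ℤ) := by
    intro x hx y hy hxy
    have h1 : τ x = τ y := fq_inj ha hQ hxy
    have h2 := hτx x hx
    have h3 := hτx y hy
    rw [h1] at h2
    linarith
  set V' : Finset (ℤ × ℤ) := V.image F with hV'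
  have hVc : V'.card = V.card := card_image_of_injOn hinj
  obtain ⟨U, G, h1, h2, h3⟩ := h V' (by
    intro f hf
    obtain ⟨x, hx, rfl⟩ := mem_image.1 hf
    exact ⟨fq_pos ha hQ _, fq_cop hab _ fun p hp hpQ => hb2 p hp hpQ _ (mem_image_of_mem τ hx)⟩) (by
    intro p _ hp
    obtain ⟨n, hn⟩ := fq_adm ha hab (Q := Q) (r := r) E (by
      intro v hv
      obtain ⟨x, hx, rfl⟩ := mem_image.1 hv
      exact (Dvd.intro _ rfl).trans (hτM x hx)) hb2 hp
    refine ⟨n, fun f hf hd => ?_⟩
    obtain ⟨x, hx, rfl⟩ := mem_image.1 hf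
    exact hn (τ x) (mem_image_of_mem τ hx) hd) (by
    rw [hVc]; exact hn)
  have h4 := sum_rare V' U (fun j => (h1 j).1) (5 / 18 - e) e (by linarith) h2
  have hmR : (0 : ℝ) < m := by exact_mod_cast hm
  obtain ⟨j, hj⟩ : ∃ j, (5 / 18 - ε) * (V.card : ℝ) ≤ ((U j).card : ℝ) := by
    by_contra hno
    push Not at hno
    have hne : (univ : Finset (Fin m)).Nonempty := ⟨⟨0, hm⟩, mem_univ _⟩
    have h5 : ∑ j, ((U j).card : ℝ) < ∑ _j : Fin m, (5 / 18 - ε) * (V.card : ℝ) :=
      sum_lt_sum_of_nonempty hne fun j _ => hno j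
    rw [sum_const, card_univ, Fintype.card_fin, nsmul_eq_mul] at h5
    rw [hVc] at h4
    have h6 : (5 / 18 - ε) * (V.card : ℝ) ≤ (5 / 18 - e) * ((1 - e) * V.card) := by
      have : (0 : ℝ) ≤ V.card := Nat.cast_nonneg _
      have h7 : (5 : ℝ) / 18 - ε ≤ (5 / 18 - e) * (1 - e) := by nlinarith
      calc (5 / 18 - ε) * (V.card : ℝ) ≤ ((5 / 18 - e) * (1 - e)) * V.card :=
            mul_le_mul_of_nonneg_right h7 this
        _ = _ := by ring
    have h8 := mul_le_mul_of_nonneg_left h6 hmR.le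
    have h9 : (5 / 18 - e) * m * ((1 - e) * V.card) = m * ((5 / 18 - e) * ((1 - e) * V.card)) := by
      ring
    linarith
  set A : Finset ℤ := V.filter (fun x => F x ∈ U j) with hA
  have hAV : A ⊆ V := filter_subset _ _
  have hAU : A.image F = U j := by
    ext f
    constructor
    · intro hf
      obtain ⟨x, hx, rfl⟩ := mem_image.1 hf
      exact (mem_filter.1 hx).2
    · intro hf
      obtain ⟨x, hx, rfl⟩ := mem_image.1 ((h1 j).1 hf)
      exact mem_image.2 ⟨x, mem_filter.2 ⟨hx, hf⟩, rfl⟩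
  have hAc : A.card = (U j).card := by
    rw [← hAU]
    exact (card_image_of_injOn (hinj.mono (by exact_mod_cast hAV))).symm
  refine ⟨A, hAV, ?_, ?_⟩
  · rw [hAc]
    exact hj
  · have h5 : Set.ncard {y : Fin (k + 1) → ℤ | (∀ i, y i ∈ A) ∧
        Function.Injective y ∧ ¬ GoodZ a b q k (C + 1) (fun j => y j.succ - y 0)} ≤
        (exc (U j) (fun f => f ∈ G)).card := by
      rw [← Set.ncard_coe_finset]
      refine Set.ncard_le_ncard_of_injOn (fun y i => F (y i)) ?_ ?_ (Set.toFinite _)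
      · rintro y ⟨hy1, hy2, hy3⟩
        rw [mem_coe, mem_exc]
        refine ⟨fun i => (mem_filter.1 (hy1 i)).2, fun i i' hii => hy2 (hinj (hAV (hy1 i))
          (hAV (hy1 i')) hii), fun hG => hy3 ?_⟩
        have hy0 : y 0 ∈ V := hAV (hy1 0)
        have hti : ∀ i, (((τ (y 0)) : ℕ) : ℤ) +
            (Fin.cons 0 (fun j : Fin k => y j.succ - y 0) : Fin (k + 1) → ℤ) i = y i + s := by
          intro i
          rw [hτx _ hy0]
          rcases Fin.eq_zero_or_eq_succ i with h0 | ⟨j', hj'⟩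
          · subst h0
            rw [Fin.cons_zero]
            ring
          · subst hj'
            rw [Fin.cons_succ]
            ring
        have hqM : q ∣ M₀ := Dvd.intro_left _ rfl
        refine ⟨τ (y 0), hqM.trans (hτM _ hy0), fun i => ?_, ?_⟩
        · rw [hti i]
          have h6 : (q : ℤ) ≤ M₀ := by exact_mod_cast Nat.le_of_dvd hM₀1 hqM
          exact h6.trans (hpos _ (hAV (hy1 i))).1
        · have h7 : (fun i => ((((τ (y 0)) : ℕ) : ℤ) +
            (Fin.cons 0 (fun j : Fin k => y j.succ - y 0) : Fin (k + 1) → ℤ) i).toNat) =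
            fun i => τ (y i) := by
            funext i
            rw [hti i]
          rw [h7]
          set D : ℕ := Q + b.natAbs + r with hD
          have htend : Tendsto (fun N : ℕ => Q * N + D) atTop atTop := by
            refine tendsto_atTop_mono (fun N => ?_) tendsto_id
            show N ≤ Q * N + D
            nlinarith
          refine htend.frequently ((h3.and_eventually (growthA Q D C)).mono ?_)
          rintro N ⟨hN, hgr⟩ J
          refine hgr.trans ?_
          have h6 := hN _ hG J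
          have h8 := pat_le ha hQ (q := q) (E := E) (W := W) (r := r) (by
            intro v hv
            obtain ⟨x, hx, rfl⟩ := mem_image.1 hv
            exact hqM.trans (hτM x hx)) hb1 (fun i => τ (y i)) (fun i => hEW _ (hAV (hy1 i))) J N
          have h9 : (pat (fun i => fq a b Q r (τ (y i))) J N : ℝ) ≤
              (ptq a b q (fun i => τ (y i)) J (Q * N + D) : ℝ) + D := by exact_mod_cast h8
          have h10 : (N : ℝ) / (Real.log N) ^ C ≤ (pat (fun i => fq a b Q r (τ (y i))) J N : ℝ) := h6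
          linarith
      · intro y hy y' hy' hyy
        funext i
        exact hinj (hAV (hy.1 i)) (hAV (hy'.1 i)) (congrFun hyy i)
    calc (Set.ncard {y : Fin (k + 1) → ℤ | (∀ i, y i ∈ A) ∧
        Function.Injective y ∧ ¬ GoodZ a b q k (C + 1) (fun j => y j.succ - y 0)} : ℝ) ≤
        ((exc (U j) (fun f => f ∈ G)).card : ℝ) := by exact_mod_cast h5
      _ ≤ e * ((U j).card : ℝ) ^ (k + 1) := (h1 j).2
      _ ≤ ε * (V.card : ℝ) ^ (k + 1) := by
          have h6 : ((U j).card : ℝ) ≤ V.card := by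
            rw [← hVc]; exact_mod_cast card_le_card (h1 j).1
          exact mul_le_mul (by linarith) (pow_le_pow_left₀ (Nat.cast_nonneg _) h6 _)
            (by positivity) hε.le

/-- the starting values for a vector of times -/
def Ps (a : ℕ) (b : ℤ) (q : ℕ) {k : ℕ} (d : Fin (k + 1) → ℕ) (J : Finset (Fin (k + 1))) (m : ℕ) : Prop :=
  Pt a b q d J m ∧ ∀ l, 0 < l → l < q → ∀ p : ℕ, p.Prime → va a b l p ≠ m

open Classical in
/-- the number of these starting values -/
noncomputable def psq (a : ℕ) (b : ℤ) (q : ℕ) {k : ℕ} (d : Fin (k + 1) → ℕ) (J : Finset (Fin (k + 1)))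
    (x : ℕ) : ℕ := ((Icc 1 x).filter (fun m : ℕ => Ps a b q d J m)).card

/-- the transfer: from good differences of times to times with least element `0` -/
theorem goodD {a : ℕ} {b : ℤ} (ha : 2 ≤ a) {q k C : ℕ} {h : Fin k → ℤ} (hg : GoodZ a b q k C h)
    (D : Fin (k + 1) → ℕ) (hD0 : ∃ i, D i = 0)
    (hD : ∀ i, (D i : ℤ) = D 0 + (Fin.cons 0 h : Fin (k + 1) → ℤ) i) (hqD : q ∣ D 0) :
    ∃ᶠ x : ℕ in atTop, ∀ J : Finset (Fin (k + 1)), (x : ℝ) / (Real.log x) ^ (C + 1) ≤
      (psq a b q D J x : ℝ) := by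
  classical
  obtain ⟨e₀, hqe₀, hpos₀, hfr⟩ := hg
  obtain ⟨i₀, hi₀⟩ := hD0
  have hle : q + D 0 ≤ e₀ := by
    have h1 := hpos₀ i₀
    have h2 := hD i₀
    rw [hi₀] at h2
    push_cast at h2
    omega
  obtain ⟨e, he⟩ : ∃ e : ℕ, e₀ = e + D 0 := ⟨e₀ - D 0, by omega⟩
  have hqe' : q ≤ e := by omega
  have hqe : q ∣ e := by
    rw [he] at hqe₀
    exact (Nat.dvd_add_left hqD).1 hqe₀
  have hti : (fun i : Fin (k + 1) => ((e₀ : ℤ) + (Fin.cons 0 h : Fin (k + 1) → ℤ) i).toNat) =
      fun i => e + D i := by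
    funext i
    have h2 := hD i
    rw [he]
    push_cast
    omega
  rw [hti] at hfr
  set g : ℤ := b * geo a e with hg
  set B : ℕ := g.natAbs with hB
  set P : ℕ := a ^ e with hP
  have hP1 : 1 ≤ P := Nat.one_le_pow _ _ (by omega)
  have htend : Tendsto (fun N : ℕ => P * N + B) atTop atTop := by
    refine tendsto_atTop_mono (fun N => ?_) tendsto_id
    show N ≤ P * N + B
    nlinarith
  have h1 := hfr.and_eventually (growthA P B C)
  refine htend.frequently (h1.mono ?_)
  rintro N ⟨hN, hgr⟩ J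
  refine hgr.trans ?_
  have h2 := hN J
  have h3 : ptq a b q (fun i => e + D i) J N ≤ psq a b q D J (P * N + B) + B := by
    unfold ptq psq
    have h4 : (Icc 1 N).filter (fun n : ℕ => Pt a b q (fun i => e + D i) J n) ⊆
        (Icc 1 B) ∪ ((Icc (B + 1) N).filter (fun n : ℕ => Pt a b q (fun i => e + D i) J n)) := by
      intro n hn
      rw [mem_filter, mem_Icc] at hn
      rw [mem_union, mem_Icc, mem_filter, mem_Icc]
      by_cases hnB : n ≤ B
      · exact Or.inl ⟨hn.1.1, hnB⟩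
      · exact Or.inr ⟨⟨by omega, hn.1.2⟩, hn.2⟩
    have h5 : ((Icc (B + 1) N).filter (fun n : ℕ => Pt a b q (fun i => e + D i) J n)).card ≤
        ((Icc 1 (P * N + B)).filter (fun m : ℕ => Ps a b q D J m)).card := by
      have hgB : -(B : ℤ) ≤ g ∧ g ≤ B := by omega
      apply card_le_card_of_injOn (fun n : ℕ => ((P : ℤ) * n + g).toNat)
      · intro n hn
        rw [mem_coe, mem_filter, mem_Icc] at hn
        rw [mem_coe, mem_filter, mem_Icc]
        obtain ⟨⟨hn1, hn2⟩, hn3, hn4⟩ := hn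
        have hPn : (n : ℤ) ≤ (P : ℤ) * n := by
          have : n ≤ P * n := by nlinarith
          exact_mod_cast this
        have hPN : (P : ℤ) * n ≤ ((P * N : ℕ) : ℤ) := by
          push_cast
          exact mul_le_mul_of_nonneg_left (by exact_mod_cast hn2) (by positivity)
        have hpos : 1 ≤ (P : ℤ) * n + g := by
          have : (B : ℤ) + 1 ≤ n := by exact_mod_cast hn1
          linarith [hgB.1]
        have h7 : ((((P : ℤ) * n + g).toNat : ℕ) : ℤ) = va a b e n := by
          rw [Int.toNat_of_nonneg (by omega), hP, hg]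
          unfold va
          push_cast
          ring
        refine ⟨⟨by show 1 ≤ ((P : ℤ) * n + g).toNat; omega, ?_⟩, ⟨fun i => ?_, ?_⟩, ?_⟩
        · show ((P : ℤ) * n + g).toNat ≤ P * N + B
          have : (P : ℤ) * n + g ≤ ((P * N + B : ℕ) : ℤ) := by
            push_cast at hPN ⊢
            linarith [hgB.2]
          omega
        · have h6 := hn3 i
          beta_reduce at h6
          rw [va_comp, ← h7] at h6
          exact h6
        · intro i s hs hqs
          have h6 := hn4 i (e + s) (by show e + s < e + D i + q; omega) (fun hd => hqs ((Nat.dvd_add_right hqe).1 hd))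
          rw [va_comp, ← h7] at h6
          exact h6
        · intro l hl0 hlq p hp heq
          have h8 : va a b l p = va a b e n := heq.trans h7
          have h9 : e = (e - l) + l := by omega
          rw [h9, va_comp] at h8
          have h10 := va_inj ha l h8
          have h11 := hn4 0 (e - l) (by show e - l < e + D 0 + q; omega) (by
            intro hd
            have h12 : q ∣ l := by
              have h13 : l = e - (e - l) := by omega
              rw [h13]
              exact Nat.dvd_sub hqe hd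
            have := Nat.le_of_dvd hl0 h12
            omega)
          rw [← h10] at h11
          exact h11 (by simpa using hp)
      · intro n hn n' hn' hnn
        rw [mem_coe, mem_filter, mem_Icc] at hn hn'
        have h6 : ((P : ℤ) * n + g).toNat = ((P : ℤ) * n' + g).toNat := hnn
        have h7 : ∀ m : ℕ, B + 1 ≤ m → 1 ≤ (P : ℤ) * m + g := by
          intro m hm
          have hPm : (m : ℤ) ≤ (P : ℤ) * m := by
            have : m ≤ P * m := by nlinarith
            exact_mod_cast this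
          have : (B : ℤ) + 1 ≤ m := by exact_mod_cast hm
          linarith [hgB.1]
        have h8 := h7 n hn.1.1
        have h9 := h7 n' hn'.1.1
        have h10 : (P : ℤ) * n + g = (P : ℤ) * n' + g := by omega
        have h11 : (P : ℤ) * n = (P : ℤ) * n' := by linarith
        have h12 : P * n = P * n' := by exact_mod_cast h11
        exact Nat.eq_of_mul_eq_mul_left (by omega) h12
    have h6 := (card_le_card h4).trans (card_union_le _ _)
    rw [Nat.card_Icc] at h6
    have h7 : B + 1 - 1 = B := by omega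
    rw [h7] at h6
    refine h6.trans ?_
    rw [add_comm]
    exact Nat.add_le_add_right h5 B
  have h3' : (ptq a b q (fun i => e + D i) J N : ℝ) ≤ (psq a b q D J (P * N + B) : ℝ) + B := by
    exact_mod_cast h3
  linarith

/-- good vectors of times `≥ 0` -/
def GoodT (a : ℕ) (b : ℤ) (q : ℕ) {k : ℕ} (C : ℕ) (d : Fin k → ℕ) : Prop :=
  ∃ᶠ x : ℕ in atTop, ∀ J : Finset (Fin (k + 1)), (x : ℝ) / (Real.log x) ^ C ≤
    (psq a b q (Fin.cons 0 d : Fin (k + 1) → ℕ) J x : ℝ)

theorem goodT_of_goodZ {a : ℕ} {b : ℤ} (ha : 2 ≤ a) {q k C : ℕ} {d : Fin k → ℕ}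
    (h : GoodZ a b q k C (fun j => (d j : ℤ))) : GoodT a b q (C + 1) d := by
  refine goodD ha h _ ⟨0, Fin.cons_zero _ _⟩ (fun i => ?_) (by rw [Fin.cons_zero]; exact dvd_zero q)
  rcases Fin.eq_zero_or_eq_succ i with h0 | ⟨j', hj'⟩
  · subst h0
    rw [Fin.cons_zero, Fin.cons_zero]
    simp
  · subst hj'
    rw [Fin.cons_succ, Fin.cons_succ, Fin.cons_zero]
    simp

open Classical in
/-- the number of the good vectors of times `c + N t`, `t ∈ [0, T) ^ k` -/
noncomputable def gbox {k : ℕ} (a : ℕ) (b : ℤ) (q C : ℕ) (c : Fin k → ℕ) (N T : ℕ) : ℕ :=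
  ((Fintype.piFinset (fun _ : Fin k => range T)).filter
    (fun t => GoodT a b q C (fun j => c j + N * t j))).card

theorem cnt_le_gbox {a : ℕ} {b : ℤ} (ha : 2 ≤ a) {q k : ℕ} (C : ℕ) (c : Fin k → ℕ) (N T : ℕ) :
    Pool.Agent.N646.BX.cnt (GoodZ a b q k C) (fun j => (c j : ℤ)) N T ≤ gbox a b q (C + 1) c N T := by
  classical
  unfold Pool.Agent.N646.BX.cnt gbox
  apply card_le_card_of_injOn (fun t : Fin k → ℤ => fun j => (t j).toNat)
  · intro t ht
    rw [mem_coe, mem_filter, Fintype.mem_piFinset] at ht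
    rw [mem_coe, mem_filter, Fintype.mem_piFinset]
    obtain ⟨h1, h2⟩ := ht
    refine ⟨fun j => ?_, ?_⟩
    · have := mem_Ico.1 (h1 j)
      rw [mem_range]
      show (t j).toNat < T
      omega
    · apply goodT_of_goodZ ha
      have h3 : (fun j => ((c j + N * (t j).toNat : ℕ) : ℤ)) = fun j => (c j : ℤ) + N * t j := by
        funext j
        have := mem_Ico.1 (h1 j)
        push_cast
        rw [Int.toNat_of_nonneg this.1]
      show GoodZ a b q k C (fun j => ((c j + N * (t j).toNat : ℕ) : ℤ))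
      rw [h3]
      exact h2
  · intro t ht t' ht' htt
    rw [mem_coe, mem_filter, Fintype.mem_piFinset] at ht ht'
    funext j
    have h1 := mem_Ico.1 (ht.1 j)
    have h2 := mem_Ico.1 (ht'.1 j)
    have h3 : (t j).toNat = (t' j).toNat := congrFun htt j
    omega

/-- **Boxes of times in the orbits of an affine map.** -/
theorem main (k : ℕ) (hk : 1 ≤ k) (ε : ℝ) (hε : 0 < ε) : ∃ C : ℕ, ∀ (a : ℕ) (b : ℤ), 2 ≤ a →
    IsCoprime (a : ℤ) b → ∀ q : ℕ, 1 ≤ q → ∃ M : ℕ, 1 ≤ M ∧ ∀ N : ℕ, 1 ≤ N → M ∣ N → ∃ L : ℕ,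
      ∀ T : ℕ, L ≤ T → ∀ c : Fin k → ℕ, (∀ j, M ∣ c j) →
        ((k + 1) * (5 / 18 : ℝ) ^ k - ε) * (T : ℝ) ^ k ≤ (gbox a b q C c N T : ℝ) := by
  obtain ⟨ε', hε', h⟩ := box_main k hk (5 / 18) (by norm_num) (by norm_num) ε hε
  obtain ⟨C, hC⟩ := cleO k ε' hε'
  refine ⟨C + 1, fun a b ha hab q hq => ?_⟩
  obtain ⟨M, hM, h1⟩ := h _ (hC a b ha hab q hq)
  refine ⟨M, hM, fun N hN hMN => ?_⟩
  obtain ⟨L, h2⟩ := h1 N hN hMN
  refine ⟨L, fun T hT c hc => ?_⟩
  refine (h2 T hT (fun j => (c j : ℤ)) (fun j => Int.natCast_dvd_natCast.2 (hc j))).trans ?_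
  exact_mod_cast cnt_le_gbox ha C c N T

end Pool.Agent.N694.OB
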